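import Pool.Agent.H62.LV.P14d

/-!
Critical interval length for the boundary control of the competitive Lotka-Volterra system.

In the cooperative variables `p = y₁`, `q = 1 - y₂` the critical length is the infimum of the
lengths for which a nontrivial stationary solution with zero boundary values exists. For
some length a barrier exists: a long stationary front for slightly modified coefficients is cut,
corrected near its end and reflected to a subsolution. Without a barrier the
largest solution with zero boundary data decreases to the zero state.
-/

namespace Pool.Agent.Results.MP_e2b89c_an.CriticalLength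

open Pool.Agent.H62.LV

/-- For all `a > 0`, `b > 1` with `a < b` there is a critical length `L* > π`: below it every
initial datum is asymptotically controllable to `(0, 1)`, above it a barrier exists and some
initial datum is asymptotically controllable neither to `(0, 1)` nor, when `a > 1`, to the
coexistence state. -/
theorem result (a b : ℝ) (ha : 0 < a) (hb : 1 < b) (hab : a < b) :
    ∃ Lstar : ℝ, Real.pi < Lstar ∧
      (∀ L, 0 < L → L < Lstar → ∀ y₁₀ y₂₀ : ℝ → ℝ, IsDatum L y₁₀ → IsDatum L y₂₀ →
        AsympControllable a b L y₁₀ y₂₀ 0 1) ∧
      (∀ L, Lstar < L → (∃ θ₁ θ₂ : ℝ → ℝ, IsBarrier a b L θ₁ θ₂) ∧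
        ∃ y₁₀ y₂₀ : ℝ → ℝ, IsDatum L y₁₀ ∧ IsDatum L y₂₀ ∧
          ¬ AsympControllable a b L y₁₀ y₂₀ 0 1 ∧
          (1 < a → ¬ AsympControllable a b L y₁₀ y₂₀
            ((a - 1) / (a * b - 1)) ((b - 1) / (a * b - 1)))) :=
  main ha hb hab

end Pool.Agent.Results.MP_e2b89c_an.CriticalLength
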